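import Pool.Agent.Helper15.RA.GoalsR

/-!
# Project RA, packet RA-RX: finite dihedral groups with equal parameters, `x_k = c_(1_k)`.

With `u = v^(-a)` one has the closed formula `x_k = ∑_(j < k) u^(k-1-j) c_i T_(2_j)` (`SS`), which is proved by induction.
-/

set_option autoImplicit false

open LaurentPolynomial

noncomputable section

namespace Pool.Agent.Helper74.RA

open Pool.Agent.Helper15.RA

/-- `∑_(j < k) u^(k-1-j) B_j` -/
def SS {H : Type} [Ring H] [Algebra ℤ[T;T⁻¹] H] (u : ℤ[T;T⁻¹]) (B : ℕ → H) : ℕ → H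
  | 0 => 0
  | k + 1 => B k + u • SS u B k

section

variable {H : Type} [Ring H] [Algebra ℤ[T;T⁻¹] H] {u w : ℤ[T;T⁻¹]} {ci cj : H} {t1 t2 : ℕ → H} {m : ℕ}

theorem ss_rec (huw : u * w = 1) (h0 : t1 0 = t2 0)
    (h2 : ∀ k < m, cj * t1 k = t2 (k + 1) + u • t1 k)
    (h3 : ∀ k < m, ci * t1 (k + 1) = w • (ci * t2 k)) :
    ∀ k < m, ci * SS u (fun k => cj * t1 k) (k + 1) =
      SS u (fun k => ci * t2 k) (k + 2) + SS u (fun k => ci * t2 k) k := by
  intro k
  induction k with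
  | zero =>
    intro hk
    simp only [SS, smul_zero, add_zero]
    rw [h2 0 hk, mul_add, mul_smul_comm, h0]
  | succ k ih =>
    intro hk
    have ih := ih (by omega)
    have e1 : SS u (fun k => cj * t1 k) (k + 1 + 1) =
        cj * t1 (k + 1) + u • SS u (fun k => cj * t1 k) (k + 1) := rfl
    have e2 : SS u (fun k => ci * t2 k) (k + 1 + 2) =
        ci * t2 (k + 2) + u • SS u (fun k => ci * t2 k) (k + 2) := rfl
    have e3 : SS u (fun k => ci * t2 k) (k + 1) = ci * t2 k + u • SS u (fun k => ci * t2 k) k := rfl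
    rw [e1, e2, e3, mul_add, mul_smul_comm, ih, h2 (k + 1) hk, mul_add, mul_smul_comm, h3 k (by omega),
      smul_smul, huw, one_smul, smul_add]
    abel

theorem xx_eq (huw : u * w = 1) (h10 : t1 0 = 1) (h20 : t2 0 = 1)
    (h1 : ∀ k < m, ci * t2 k = t1 (k + 1) + u • t2 k)
    (h2 : ∀ k < m, cj * t1 k = t2 (k + 1) + u • t1 k)
    (h3 : ∀ k < m, ci * t1 (k + 1) = w • (ci * t2 k))
    (h4 : ∀ k < m, cj * t2 (k + 1) = w • (cj * t1 k)) :
    ∀ k, k ≤ m → (XX ci cj k = SS u (fun k => ci * t2 k) k ∧ XX cj ci k = SS u (fun k => cj * t1 k) k) := by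
  intro k
  induction k using Nat.strong_induction_on with
  | _ k ih =>
    match k, ih with
    | 0, _ => exact fun _ => ⟨rfl, rfl⟩
    | 1, _ =>
      intro _
      refine ⟨?_, ?_⟩
      · simp only [XX, SS, smul_zero, add_zero]
        rw [h20, mul_one]
      · simp only [XX, SS, smul_zero, add_zero]
        rw [h10, mul_one]
    | k + 2, ih =>
      intro hk
      obtain ⟨a1, a2⟩ := ih k (by omega) (by omega)
      obtain ⟨b1, b2⟩ := ih (k + 1) (by omega) (by omega)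
      have e1 : XX ci cj (k + 2) = ci * XX cj ci (k + 1) - XX ci cj k := rfl
      have e2 : XX cj ci (k + 2) = cj * XX ci cj (k + 1) - XX cj ci k := rfl
      refine ⟨?_, ?_⟩
      · rw [e1, a1, b2, ss_rec huw (h10.trans h20.symm) h2 h3 k (by omega)]
        abel
      · rw [e2, a2, b1, ss_rec huw (h20.trans h10.symm) h1 h4 k (by omega)]
        abel

omit [Algebra ℤ[T;T⁻¹] H] in
theorem xx_map (f : H →+* H) (a b : H) (ha : f a = a) (hb : f b = b) :
    ∀ k, f (XX a b k) = XX a b k ∧ f (XX b a k) = XX b a k := by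
  intro k
  induction k using Nat.strong_induction_on with
  | _ k ih =>
    match k, ih with
    | 0, _ => exact ⟨map_zero f, map_zero f⟩
    | 1, _ => exact ⟨ha, hb⟩
    | k + 2, ih =>
      obtain ⟨a1, a2⟩ := ih k (by omega)
      obtain ⟨b1, b2⟩ := ih (k + 1) (by omega)
      have e1 : XX a b (k + 2) = a * XX b a (k + 1) - XX a b k := rfl
      have e2 : XX b a (k + 2) = b * XX a b (k + 1) - XX b a k := rfl
      refine ⟨?_, ?_⟩
      · rw [e1, map_sub, map_mul, ha, b2, a1]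
      · rw [e2, map_sub, map_mul, hb, b1, a2]

/-- the coordinates of `SS k - t_1(k)` have degree `≤ -1` -/
theorem ss_deg {W : Type} (t : Module.Basis W ℤ[T;T⁻¹] H) (hu : DegLE (-1) u)
    (h1 : ∀ k < m, ci * t2 k = t1 (k + 1) + u • t2 k)
    (d1 : ∀ k ≤ m, ∀ y, DegLE 0 (t.repr (t1 k) y)) (d2 : ∀ k ≤ m, ∀ y, DegLE 0 (t.repr (t2 k) y)) :
    ∀ k < m, ∀ y, DegLE (-1) (t.repr (SS u (fun k => ci * t2 k) (k + 1) - t1 (k + 1)) y) := by
  intro k
  induction k with
  | zero =>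
    intro hk y
    have e : SS u (fun k => ci * t2 k) (0 + 1) - t1 (0 + 1) = u • t2 0 := by
      simp only [SS, smul_zero, add_zero, zero_add]
      rw [h1 0 hk]
      simp
    rw [e, map_smul, Finsupp.smul_apply, smul_eq_mul]
    exact hu.mul_le (d2 0 (by omega) y) (by omega)
  | succ k ih =>
    intro hk y
    have e : SS u (fun k => ci * t2 k) (k + 1 + 1) - t1 (k + 1 + 1) =
        u • t2 (k + 1) + u • (SS u (fun k => ci * t2 k) (k + 1) - t1 (k + 1)) + u • t1 (k + 1) := by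
      have e1 : SS u (fun k => ci * t2 k) (k + 1 + 1) =
        ci * t2 (k + 1) + u • SS u (fun k => ci * t2 k) (k + 1) := rfl
      rw [e1, h1 (k + 1) hk, smul_sub]
      abel
    rw [e, map_add, map_add, map_smul, map_smul, map_smul, Finsupp.add_apply, Finsupp.add_apply,
      Finsupp.smul_apply, Finsupp.smul_apply, Finsupp.smul_apply, smul_eq_mul, smul_eq_mul, smul_eq_mul]
    refine ((hu.mul_le (d2 (k + 1) (by omega) y) (by omega)).add ?_).add
      (hu.mul_le (d1 (k + 1) (by omega) y) (by omega))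
    exact hu.mul_le (ih (by omega) y) (by omega)

end

section

variable {I W H : Type} [Group W] [Ring H] [Algebra ℤ[T;T⁻¹] H] {M : CoxeterMatrix I}
  {cs : CoxeterSystem M W} {L : W → ℕ}

omit [Group W] in
/-- the coordinates of `T_w` have degree `≤ 0` -/
theorem t_deg (t : Module.Basis W ℤ[T;T⁻¹] H) (w y : W) : DegLE 0 (t.repr (t w) y) := by
  classical
  rw [Module.Basis.repr_self, Finsupp.single_apply]
  split_ifs
  · exact DegLE.one le_rfl
  · exact DegLE.zero 0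

/-- the part of the proof which is not symmetric in `i`, `j` -/
theorem half (hH1 : H_1) (hH2 : H_2) (wt : IsWeight cs L) (D : Hecke cs L H) (i j : I) (m : ℕ)
    (l1 : ∀ k ≤ m, cs.length (al cs i j k) = k) (l2 : ∀ k ≤ m, cs.length (al cs j i k) = k) :
    (∀ k < m, D.c (cs.simple i) * D.t (al cs j i k) = D.t (al cs i j (k + 1)) +
      (T (-(L (cs.simple i) : ℤ)) : ℤ[T;T⁻¹]) • D.t (al cs j i k)) ∧
    (∀ k < m, D.c (cs.simple i) * D.t (al cs i j (k + 1)) =
      (T (L (cs.simple i) : ℤ) : ℤ[T;T⁻¹]) • (D.c (cs.simple i) * D.t (al cs j i k))) := by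
  obtain ⟨-, r2, -⟩ := hH1 I W H M cs L D.toHecke1.toHecke0
  obtain ⟨-, -, -, -, -, -, -, -, hc, -⟩ := hH2 I W H M cs L wt D
  have key : ∀ k < m, D.t (cs.simple i) * D.t (al cs j i k) = D.t (al cs i j (k + 1)) := by
    intro k hk
    have h1 : cs.simple i * al cs j i k = al cs i j (k + 1) := rfl
    rw [← h1]
    refine r2 i (al cs j i k) ?_
    rw [h1, l1 (k + 1) hk, l2 k (by omega)]
  have hq : D.c (cs.simple i) * D.t (cs.simple i) =
      (T (L (cs.simple i) : ℤ) : ℤ[T;T⁻¹]) • D.c (cs.simple i) := by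
    have h := D.quad i
    rw [← hc i, mul_sub, sub_eq_zero, mul_smul_comm, mul_one] at h
    exact h
  refine ⟨fun k hk => ?_, fun k hk => ?_⟩
  · rw [hc i, add_mul, key k hk, smul_mul_assoc, one_mul]
  · rw [← key k hk, ← mul_assoc, hq, smul_mul_assoc]

end

theorem h_rx (hH1 : H_1) (hH2 : H_2) (hW : R_W) : R_X := by
  intro I W H _ _ _ X hab
  have hm0 : X.M X.i X.j ≠ 0 := by
    have := X.hm
    omega
  have hsym : X.M X.j X.i = X.M X.i X.j := X.M.symmetric X.j X.i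
  obtain ⟨l1, -⟩ := hW I W X.M X.cs X.i X.j X.ne X.all hm0
  obtain ⟨l2, -⟩ := hW I W X.M X.cs X.j X.i X.ne.symm (fun k => (X.all k).symm) (by rw [hsym]; exact hm0)
  rw [hsym] at l2
  have hL : X.L (X.cs.simple X.j) = X.L (X.cs.simple X.i) := hab.symm
  obtain ⟨t0, -⟩ := hH1 I W H X.M X.cs X.L X.D.toHecke1.toHecke0
  obtain ⟨-, -, -, -, -, -, huniq, -, -, -⟩ := hH2 I W H X.M X.cs X.L X.wt X.D
  obtain ⟨a1, a2⟩ := half hH1 hH2 X.wt X.D X.i X.j (X.M X.i X.j) l1 l2
  obtain ⟨b1, b2⟩ := half hH1 hH2 X.wt X.D X.j X.i (X.M X.i X.j) l2 l1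
  rw [hL] at b1 b2
  have hpos : 0 < X.L (X.cs.simple X.i) := X.wt.pos _ (by
    intro h
    have := X.cs.length_simple X.i
    rw [h, X.cs.length_one] at this
    omega)
  have huw : (T (-(X.L (X.cs.simple X.i) : ℤ)) : ℤ[T;T⁻¹]) * T (X.L (X.cs.simple X.i) : ℤ) = 1 := by
    rw [← T_add, neg_add_cancel, T_zero]
  have hu : DegLE (-1) (T (-(X.L (X.cs.simple X.i) : ℤ)) : ℤ[T;T⁻¹]) := DegLE.T_le (by omega)
  have hx := xx_eq (m := X.M X.i X.j) (t1 := fun k => X.D.t (al X.cs X.i X.j k))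
    (t2 := fun k => X.D.t (al X.cs X.j X.i k)) huw t0 t0 a1 b1 a2 b2
  have hd1 := ss_deg (m := X.M X.i X.j) (t1 := fun k => X.D.t (al X.cs X.i X.j k))
    (t2 := fun k => X.D.t (al X.cs X.j X.i k)) X.D.t hu a1 (fun k _ y => t_deg _ _ y) (fun k _ y => t_deg _ _ y)
  have hd2 := ss_deg (m := X.M X.i X.j) (t1 := fun k => X.D.t (al X.cs X.j X.i k))
    (t2 := fun k => X.D.t (al X.cs X.i X.j k)) X.D.t hu b1 (fun k _ y => t_deg _ _ y) (fun k _ y => t_deg _ _ y)
  have hbar := xx_map X.D.bar (X.D.c (X.cs.simple X.i)) (X.D.c (X.cs.simple X.j)) (X.D.bar_c _) (X.D.bar_c _)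
  refine ⟨fun k hk1 hkm => ?_, fun k hk1 hkm => ?_⟩
  · obtain ⟨k, rfl⟩ : ∃ n, k = n + 1 := ⟨k - 1, by omega⟩
    refine huniq _ _ (hbar (k + 1)).1 fun y => ?_
    have h := hd1 k hkm y
    rw [← (hx (k + 1) hkm).1] at h
    exact h
  · obtain ⟨k, rfl⟩ : ∃ n, k = n + 1 := ⟨k - 1, by omega⟩
    refine huniq _ _ (hbar (k + 1)).2 fun y => ?_
    have h := hd2 k hkm y
    rw [← (hx (k + 1) hkm).2] at h
    exact h

end Pool.Agent.Helper74.RA
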